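import Pool.Agent.Y515.D6.Core

/-!
# `D_6` has positive lower density in all windows and reduced residue classes

The starting file `LinearDensity` proves the conjecture of Erdős and Graham: `D_6(n) > c n`. Here
the elements of `D_6` are found in every window `((1 - δ) n, n]` and in every reduced residue class
modulo every `q`, with a proportion bounded below uniformly in the class; the case `q = 1`, `δ = 1`
is the conjecture. The proof is the one of the starting library (`Pool.Agent.H295R3.D6`), with the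
candidates `k p` (`k` with large prime factors, `p` a large prime) counted in windows and classes by
the prime number theorem in arithmetic progressions (`Pool.Agent.Cov.PNT`), and with the exceptional
set made smaller than any fixed proportion of them.
-/

set_option autoImplicit false

namespace Pool.Agent.Results.MP_70e45f_nt.WindowsAndClasses

/-- `F k` is the set of the positive integers `m` for which there are `1 ≤ r ≤ k` and integers
`m = a 1 > a 2 > ⋯ > a r ≥ 1` such that `(a 1)! (a 2)! ⋯ (a r)!` is a perfect square. -/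
def F (k : ℕ) : Set ℕ := {m | ∃ r : ℕ, 1 ≤ r ∧ r ≤ k ∧ ∃ a : ℕ → ℕ, a 1 = m ∧
  (∀ i j, 1 ≤ i → i < j → j ≤ r → a j < a i) ∧ (∀ i, 1 ≤ i → i ≤ r → 1 ≤ a i) ∧
  IsSquare (∏ i ∈ Finset.Icc 1 r, (a i).factorial)}

/-- `D k = F k \ F (k - 1)`. -/
def D (k : ℕ) : Set ℕ := F k \ F (k - 1)

/-- For every `q ≥ 1` and every `δ > 0` there is `c > 0` such that for all large `n` and all `a`
coprime to `q` more than `c n` integers `m` with `(1 - δ) n < m ≤ n` and `m ≡ a (mod q)` are in
`D_6`. -/
theorem result : ∀ q : ℕ, 1 ≤ q → ∀ δ : ℝ, 0 < δ → ∃ c : ℝ, 0 < c ∧ ∃ n₀ : ℕ, ∀ n : ℕ, n₀ ≤ n →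
    ∀ a : ℕ, a.Coprime q →
    c * n < (({m : ℕ | m ∈ D 6 ∧ (1 - δ) * n < m ∧ m ≤ n ∧ m ≡ a [MOD q]}.ncard : ℕ) : ℝ) := by
  intro q hq δ hδ
  have : NeZero q := ⟨by omega⟩
  obtain ⟨c, hc, h⟩ := Pool.Agent.Y515.D6.window q (δ := min δ (1 / 2)) (lt_min hδ (by norm_num))
    (min_le_right _ _)
  obtain ⟨n₀, hn₀⟩ := Filter.eventually_atTop.1 h
  refine ⟨c / 2, by positivity, max n₀ 1, fun n hn a ha => ?_⟩
  have h1 := hn₀ n ((le_max_left _ _).trans hn) (a : ZMod q) ((ZMod.isUnit_iff_coprime a q).2 ha)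
  have hn1 : (1 : ℝ) ≤ n := by exact_mod_cast (le_max_right _ _).trans hn
  have h2 : c / 2 * n < c * n := by nlinarith
  refine h2.trans_le (h1.trans ?_)
  rw [Nat.cast_le]
  apply Set.ncard_le_ncard
  · rintro m ⟨h3, h4, h5, h6⟩
    refine ⟨h3, ?_, h4, (ZMod.natCast_eq_natCast_iff m a q).1 h6⟩
    have h7 : min δ (1 / 2) ≤ δ := min_le_left _ _
    nlinarith
  · exact (Set.finite_Iic n).subset fun m hm => hm.2.2.1

end Pool.Agent.Results.MP_70e45f_nt.WindowsAndClasses
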